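import Pool.Agent.K1H53.KD.Plan3
import Pool.Agent.K1H38.DP.Add
import Pool.Agent.K1H38.DP.Seq1

/-!
The mean free energies are close to linear functions, uniformly over drifts with given tails.
-/

open MeasureTheory ProbabilityTheory TH967.DP Filter
open scoped Topology

set_option linter.unusedSectionVars false

namespace Pool.Agent.K1H38.KD

open Pool.Agent.K1H38.DP
open Pool.Agent.K1H53.KD hiding sq

variable {d : ℕ} {Ω : Type*} [MeasurableSpace Ω] {P : Measure Ω} [IsProbabilityMeasure P]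
  {ω : ℕ → (Fin d → ℤ) → Ω → ℝ}

lemma Lm_zero' (β : ℝ) (h : Fin d → ℝ) : Lm P ω β h 0 = 0 := by
  unfold Lm
  simp [Zd_zero]

/-- **(11)** -/
theorem t_mean [NeZero d] (he : IsEnv P ω) (hexp : HasExp P ω) (β : ℝ) {p : (Fin d → ℝ) → ℝ}
    (hp : IsP P ω β p) : S_mean P ω β p := by
  intro c s C hc hc1 hs h hh
  have HS : ∀ n : ℕ, 1 ≤ n → ∀ g ∈ TE P ω β c s C,
      P.real (dev P ω β g n ((n : ℝ) ^ c)) ≤ C * Real.exp (-(n : ℝ) ^ s) := fun n hn g hg =>
    hg n hn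
  obtain ⟨A, hA, hincr⟩ := incr he hexp β hc hc1 hs HS hp
  obtain ⟨N₀, hN₀⟩ := additive he hexp β hc hs HS
  obtain ⟨A', hA', hlin⟩ := seq_add1 (D := fun n => Lm P ω β h n) (K := 3) (N₀ := N₀) hc hc1
    (by norm_num) (hN₀ h hh) (Lm_zero' β h) (hp h)
  refine ⟨A + A', by positivity, fun g hg hgh m => ?_⟩
  have h1 := abs_le.1 (hincr h hh g hg hgh m)
  have h2 := abs_le.1 (hlin m)
  rw [abs_le]
  constructor <;> linarith [h1.1, h1.2, h2.1, h2.2]

end Pool.Agent.K1H38.KD
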