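import Pool.Agent.K1H53.KD.Plan
import Pool.Agent.K1H38.DP.Tube

/-!
Confinement of the polymer from tails of its free energy at drifts in a set.
-/

open MeasureTheory ProbabilityTheory TH967.DP Filter
open scoped Topology
open Classical

set_option linter.unusedSectionVars false

namespace Pool.Agent.K1H38.KD

open Pool.Agent.K1H38.DP
open Pool.Agent.K1H53.KD hiding sq

variable {d : ℕ} {Ω : Type*} [MeasurableSpace Ω] {P : Measure Ω} [IsProbabilityMeasure P]
  {ω : ℕ → (Fin d → ℤ) → Ω → ℝ}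

/-- exponential Chebyshev inequality on the good event -/
lemma cher' [NeZero d] {β c : ℝ} {ι : Type} {G : ι → Fin d → ℝ} {N m : ℕ} (hm : m ≤ N) {a : Ω}
    (hg : a ∉ BadEv P ω β c G N) (i0 i1 : ι) {θ : Fin d → ℝ}
    (hG : G i1 = G i0 + θ) (u : ℝ) :
    frProb β (G i0) (fld ω a) {w : Fin N → Step d | u ≤ dot θ (pos w m)} ≤
      Real.exp (-u + (Lm P ω β (G i1) m - Lm P ω β (G i0) m) + 6 * (N : ℝ) ^ c) := by
  obtain ⟨n, rfl⟩ := Nat.exists_eq_add_of_le hm
  set E := ((m + n : ℕ) : ℝ) ^ c with hE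
  set η := fld ω a with hη
  have h1 := abs_le.1 (good_log0 hg i0 le_rfl)
  have h2 := abs_le.1 (good_log0 hg i1 (n := m) (by omega))
  have h3 : ∀ y : Fin d → ℤ, (∀ k, |y k| ≤ (m : ℤ)) →
      |Real.log (Zd β (G i0) (shift m y η) n) - Lm P ω β (G i0) n| ≤ E := fun y hy =>
    good_log hg i0 (by omega) (by omega) (fun k => (hy k).trans (by push_cast; omega))
  have h4 := abs_le.1 (add_of_good hg i0)
  have up : ∑ w : Fin (m + n) → Step d, wgt β (G i0) η w *
      Real.exp (dot θ (pos w m)) ≤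
      Zd β (G i1) η m * Real.exp (Lm P ω β (G i0) n + E) := by
    rw [hG]
    apply tilt_le
    intro y hy
    rw [← Real.exp_log (Zd_pos β (G i0) (shift m y η) n)]
    apply Real.exp_le_exp.2
    have := (abs_le.1 (h3 y hy)).2
    linarith
  have hZm : Zd β (G i1) η m ≤ Real.exp (Lm P ω β (G i1) m + E) := by
    rw [← Real.exp_log (Zd_pos β (G i1) η m)]
    apply Real.exp_le_exp.2
    linarith [h2.2]
  have hZN : Real.exp (Lm P ω β (G i0) (m + n) - E) ≤ Zd β (G i0) η (m + n) := by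
    rw [← Real.exp_log (Zd_pos β (G i0) η (m + n))]
    apply Real.exp_le_exp.2
    linarith [h1.1]
  have num : ∑ w : Fin (m + n) → Step d,
      {w : Fin (m + n) → Step d | u ≤ dot θ (pos w m)}.indicator (wgt β (G i0) η) w ≤
      Real.exp (-u) * ∑ w : Fin (m + n) → Step d, wgt β (G i0) η w *
        Real.exp (dot θ (pos w m)) := by
    rw [Finset.mul_sum]
    apply Finset.sum_le_sum
    intro w _
    rw [Set.indicator_apply]
    have hw := wgt_pos β (G i0) η w
    split_ifs with hc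
    · have hc' : u ≤ dot θ (pos w m) := hc
      have : 1 ≤ Real.exp (-u) * Real.exp (dot θ (pos w m)) := by
        rw [← Real.exp_add]
        apply Real.one_le_exp
        linarith
      calc wgt β (G i0) η w = wgt β (G i0) η w * 1 := (mul_one _).symm
        _ ≤ wgt β (G i0) η w * (Real.exp (-u) * Real.exp (dot θ (pos w m))) :=
            mul_le_mul_of_nonneg_left this hw.le
        _ = _ := by ring
    · positivity
  unfold frProb
  rw [div_le_iff₀ (Zd_pos β (G i0) η (m + n))]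
  calc ∑ w : Fin (m + n) → Step d,
      {w : Fin (m + n) → Step d | u ≤ dot θ (pos w m)}.indicator (wgt β (G i0) η) w ≤
      Real.exp (-u) * ∑ w : Fin (m + n) → Step d, wgt β (G i0) η w *
        Real.exp (dot θ (pos w m)) := num
    _ ≤ Real.exp (-u) * (Zd β (G i1) η m * Real.exp (Lm P ω β (G i0) n + E)) :=
        mul_le_mul_of_nonneg_left up (Real.exp_pos _).le
    _ ≤ Real.exp (-u) * (Real.exp (Lm P ω β (G i1) m + E) *
          Real.exp (Lm P ω β (G i0) n + E)) := by
        apply mul_le_mul_of_nonneg_left _ (Real.exp_pos _).le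
        exact mul_le_mul_of_nonneg_right hZm (Real.exp_pos _).le
    _ = Real.exp (-u + (Lm P ω β (G i1) m + E + (Lm P ω β (G i0) n + E))) := by
        rw [← Real.exp_add, ← Real.exp_add]
    _ ≤ Real.exp ((-u + (Lm P ω β (G i1) m - Lm P ω β (G i0) m) + 6 * E) +
          (Lm P ω β (G i0) (m + n) - E)) := by
        apply Real.exp_le_exp.2
        linarith [h4.1]
    _ = Real.exp (-u + (Lm P ω β (G i1) m - Lm P ω β (G i0) m) + 6 * E) *
          Real.exp (Lm P ω β (G i0) (m + n) - E) := Real.exp_add _ _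
    _ ≤ _ := mul_le_mul_of_nonneg_left hZN (Real.exp_pos _).le

/-- an exit through the largest coordinate -/
lemma exit_max [NeZero d] {n : ℕ} {v : Fin d → ℝ} {R : ℝ} (hR : 0 ≤ R) {w : Fin n → Step d}
    (hw : w ∉ tube n v R) : ∃ i ≤ n, ∃ k : Fin d, ∃ b : Bool,
      R / Real.sqrt d ≤ sg b * ((pos w i k : ℝ) - i * v k) ∧
      ∀ j, |(pos w i j : ℝ) - i * v j| ≤ sg b * ((pos w i k : ℝ) - i * v k) := by
  obtain ⟨i, hi, k, b, hb⟩ := exit_tube hR hw
  obtain ⟨k', -, hk'⟩ := Finset.exists_max_image (Finset.univ : Finset (Fin d))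
    (fun j => |(pos w i j : ℝ) - i * v j|) Finset.univ_nonempty
  have h1 : sg b * ((pos w i k : ℝ) - i * v k) ≤ |(pos w i k : ℝ) - i * v k| := by
    calc sg b * ((pos w i k : ℝ) - i * v k) ≤ |sg b * ((pos w i k : ℝ) - i * v k)| := le_abs_self _
      _ = _ := by rw [abs_mul, abs_sg, one_mul]
  have h2 : ∃ b' : Bool, sg b' * ((pos w i k' : ℝ) - i * v k') = |(pos w i k' : ℝ) - i * v k'| := by
    rcases le_total 0 ((pos w i k' : ℝ) - i * v k') with h | h
    · exact ⟨true, by simp [sg, abs_of_nonneg h]⟩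
    · refine ⟨false, ?_⟩
      rw [abs_of_nonpos h]
      simp [sg]
  obtain ⟨b', hb'⟩ := h2
  refine ⟨i, hi, k', b', ?_, fun j => ?_⟩
  · rw [hb']
    exact hb.trans (h1.trans (hk' k (Finset.mem_univ _)))
  · rw [hb']
    exact hk' j (Finset.mem_univ _)

lemma sq_nonneg' (t : Fin d → ℝ) : 0 ≤ K1H53.KD.sq t := Finset.sum_nonneg fun _ _ => sq_nonneg _

lemma sq_single (s : ℝ) (k : Fin d) : K1H53.KD.sq (s • (Pi.single k (1 : ℝ) : Fin d → ℝ)) = s ^ 2 := by
  unfold K1H53.KD.sq
  rw [Finset.sum_eq_single k]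
  · simp
  · intro j _ hj
    simp [Pi.single_eq_of_ne hj]
  · simp

lemma abs_le_of_sq {t : Fin d → ℝ} {r : ℝ} (hr : 0 ≤ r) (h : K1H53.KD.sq t ≤ r ^ 2) (k : Fin d) :
    |t k| ≤ r := by
  apply abs_le_of_sq_le_sq _ hr
  refine le_trans ?_ h
  exact Finset.single_le_sum (f := fun k => t k ^ 2) (fun _ _ => sq_nonneg _) (Finset.mem_univ k)

lemma sq_add_le (s t : Fin d → ℝ) : K1H53.KD.sq (s + t) ≤ 2 * K1H53.KD.sq s + 2 * K1H53.KD.sq t := by
  unfold K1H53.KD.sq
  rw [Finset.mul_sum, Finset.mul_sum, ← Finset.sum_add_distrib]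
  apply Finset.sum_le_sum
  intro k _
  have := sq_nonneg (s k - t k)
  simp only [Pi.add_apply]
  nlinarith

/-- the tilt against a vector with largest coordinate `k` -/
lemma tilt_max [NeZero d] {θ X : Fin d → ℝ} {k : Fin d} {σ t M : ℝ} (ht : 0 ≤ t) (hM : 0 ≤ M)
    (hX : ∀ j, |X j| ≤ M) (hk : σ * X k = M)
    (hθ : K1H53.KD.sq (θ - (σ * t) • (Pi.single k (1 : ℝ) : Fin d → ℝ)) ≤
      (1 / (4 * Real.sqrt d)) ^ 2 * t ^ 2) :
    3 / 4 * (t * M) ≤ ∑ j, θ j * X j := by
  have hd : (0 : ℝ) < d := by exact_mod_cast Nat.pos_of_ne_zero (NeZero.ne d)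
  have hsd : 0 < Real.sqrt d := Real.sqrt_pos.2 hd
  set δ := θ - (σ * t) • (Pi.single k (1 : ℝ) : Fin d → ℝ) with hδ
  have e1 : ∑ j, θ j * X j = t * M + ∑ j, δ j * X j := by
    have e2 : θ = (σ * t) • (Pi.single k (1 : ℝ) : Fin d → ℝ) + δ := by rw [hδ]; abel
    have e3 : ∑ j, ((σ * t) • (Pi.single k (1 : ℝ) : Fin d → ℝ)) j * X j = t * M := by
      rw [Finset.sum_eq_single k]
      · simp only [Pi.smul_apply, Pi.single_eq_same, smul_eq_mul, mul_one]
        rw [← hk]; ring
      · intro j _ hj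
        simp [Pi.single_eq_of_ne hj]
      · simp
    rw [← e3, ← Finset.sum_add_distrib]
    apply Finset.sum_congr rfl
    intro j _
    rw [← add_mul]
    congr 1
    exact congrFun e2 j
  have h1 : (∑ j, δ j * X j) ^ 2 ≤ (t * M / 4) ^ 2 := by
    have h2 := Finset.sum_mul_sq_le_sq_mul_sq (Finset.univ : Finset (Fin d)) δ X
    have h3 : ∑ j, X j ^ 2 ≤ d * M ^ 2 := by
      calc ∑ j, X j ^ 2 ≤ ∑ _j : Fin d, M ^ 2 := by
            apply Finset.sum_le_sum
            intro j _
            rw [← sq_abs (X j)]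
            exact pow_le_pow_left₀ (abs_nonneg _) (hX j) 2
        _ = d * M ^ 2 := by rw [Finset.sum_const, Finset.card_univ, Fintype.card_fin, nsmul_eq_mul]
    refine h2.trans ?_
    calc (∑ j, δ j ^ 2) * ∑ j, X j ^ 2 ≤ ((1 / (4 * Real.sqrt d)) ^ 2 * t ^ 2) * (d * M ^ 2) :=
          mul_le_mul hθ h3 (Finset.sum_nonneg fun _ _ => sq_nonneg _) (by positivity)
      _ = _ := by
          rw [div_pow, mul_pow 4, Real.sq_sqrt hd.le]
          field_simp
  have h2 := abs_le_of_sq_le_sq h1 (by positivity)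
  have h3 := (abs_le.1 h2).1
  rw [e1]
  linarith

lemma frProb_nonneg [NeZero d] {n : ℕ} (β : ℝ) (h : Fin d → ℝ) (η : ℕ → (Fin d → ℤ) → ℝ)
    (A : Set (Fin n → Step d)) : 0 ≤ frProb β h η A := by
  unfold frProb
  apply div_nonneg _ (Zd_pos β h η n).le
  exact Finset.sum_nonneg fun w _ => Set.indicator_nonneg (fun w _ => (wgt_pos _ _ _ w).le) w

/-- from polynomial factors to a clean stretched exponential bound -/
lemma to_tail {f : ℕ → ℝ} {D s₁ c : ℝ} {p : ℕ} (hD : 0 ≤ D) (hs : 0 < s₁) (hc : 0 < c) {N₀ : ℕ}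
    (hf1 : ∀ n, f n ≤ 1) (hf : ∀ n : ℕ, N₀ ≤ n → 1 ≤ n →
      f n ≤ D * (2 * (n : ℝ) + 1) ^ p * Real.exp (-(n : ℝ) ^ s₁) + Real.exp (-(n : ℝ) ^ c)) :
    ∃ s C : ℝ, 0 < s ∧ ∀ n : ℕ, 1 ≤ n → f n ≤ C * Real.exp (-(n : ℝ) ^ s) := by
  obtain ⟨B, hB⟩ := (poly_exp p (half_pos hs)).bddAbove_range
  have hB' : ∀ n : ℕ, (2 * (n : ℝ) + 1) ^ p * Real.exp (-(n : ℝ) ^ (s₁ / 2)) ≤ B := fun n =>
    hB ⟨n, rfl⟩
  have hB0 : 0 ≤ B := le_trans (by positivity) (hB' 0)
  set s := min (s₁ / 2) c with hsdef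
  have hs0 : 0 < s := by rw [hsdef]; positivity
  have hss : s ≤ s₁ / 2 := min_le_left _ _
  have hsc : s ≤ c := min_le_right _ _
  refine ⟨s, max (Real.exp ((N₀ : ℝ) ^ s)) (D * (Real.exp 1 * B) + 1), hs0, fun n hn => ?_⟩
  have hnR : (1 : ℝ) ≤ n := by exact_mod_cast hn
  rcases le_or_gt N₀ n with hle | hlt
  · refine (hf n hle hn).trans ?_
    have h1 : Real.exp (-(n : ℝ) ^ s₁) ≤ Real.exp 1 * (Real.exp (-(n : ℝ) ^ (s₁ / 2)) *
        Real.exp (-(n : ℝ) ^ s)) := by
      rw [← Real.exp_add, ← Real.exp_add]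
      apply Real.exp_le_exp.2
      have e1 : (n : ℝ) ^ s₁ = ((n : ℝ) ^ (s₁ / 2)) ^ 2 := by
        rw [← Real.rpow_natCast, ← Real.rpow_mul (by linarith)]
        congr 1; push_cast; ring
      have h2 : (n : ℝ) ^ s ≤ (n : ℝ) ^ (s₁ / 2) := Real.rpow_le_rpow_of_exponent_le hnR hss
      have h3 := sq_nonneg ((n : ℝ) ^ (s₁ / 2) - 1)
      rw [e1]
      nlinarith
    have h2 : Real.exp (-(n : ℝ) ^ c) ≤ Real.exp (-(n : ℝ) ^ s) := by
      apply Real.exp_le_exp.2
      have := Real.rpow_le_rpow_of_exponent_le hnR hsc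
      linarith
    have h3 : D * (2 * (n : ℝ) + 1) ^ p * Real.exp (-(n : ℝ) ^ s₁) ≤
        D * (Real.exp 1 * B) * Real.exp (-(n : ℝ) ^ s) := by
      calc D * (2 * (n : ℝ) + 1) ^ p * Real.exp (-(n : ℝ) ^ s₁) ≤
          D * (2 * (n : ℝ) + 1) ^ p * (Real.exp 1 * (Real.exp (-(n : ℝ) ^ (s₁ / 2)) *
        Real.exp (-(n : ℝ) ^ s))) := mul_le_mul_of_nonneg_left h1 (by positivity)
        _ = D * (Real.exp 1 * ((2 * (n : ℝ) + 1) ^ p * Real.exp (-(n : ℝ) ^ (s₁ / 2)))) *
            Real.exp (-(n : ℝ) ^ s) := by ring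
        _ ≤ D * (Real.exp 1 * B) * Real.exp (-(n : ℝ) ^ s) := by
            apply mul_le_mul_of_nonneg_right _ (Real.exp_pos _).le
            apply mul_le_mul_of_nonneg_left _ hD
            exact mul_le_mul_of_nonneg_left (hB' n) (Real.exp_pos _).le
    calc D * (2 * (n : ℝ) + 1) ^ p * Real.exp (-(n : ℝ) ^ s₁) + Real.exp (-(n : ℝ) ^ c) ≤
        D * (Real.exp 1 * B) * Real.exp (-(n : ℝ) ^ s) + Real.exp (-(n : ℝ) ^ s) := add_le_add h3 h2
      _ = (D * (Real.exp 1 * B) + 1) * Real.exp (-(n : ℝ) ^ s) := by ring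
      _ ≤ _ := mul_le_mul_of_nonneg_right (le_max_right _ _) (Real.exp_pos _).le
  · refine (hf1 n).trans ?_
    have h1 : (n : ℝ) ^ s ≤ (N₀ : ℝ) ^ s :=
      Real.rpow_le_rpow (by positivity) (by exact_mod_cast hlt.le) hs0.le
    calc (1 : ℝ) ≤ Real.exp ((N₀ : ℝ) ^ s) * Real.exp (-(n : ℝ) ^ s) := by
          rw [← Real.exp_add]
          apply Real.one_le_exp
          linarith
      _ ≤ _ := mul_le_mul_of_nonneg_right (le_max_left _ _) (Real.exp_pos _).le

/-- **(3)** confinement from tails -/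
theorem t_upper [NeZero d] (he : IsEnv P ω) (hexp : HasExp P ω) (β : ℝ) {p : (Fin d → ℝ) → ℝ}
    (hp : IsP P ω β p) : S_upper P ω β p := by
  intro c s C hc hc1 hs h v C₁ r hgood a ha ha1
  set E := TE P ω β c s C with hE
  have HS : ∀ n : ℕ, 1 ≤ n → ∀ g ∈ E,
      P.real (dev P ω β g n ((n : ℝ) ^ c)) ≤ C * Real.exp (-(n : ℝ) ^ s) := fun n hn g hg =>
    hg n hn
  obtain ⟨s', C', hs', hC', hu⟩ := tail_unif he hexp β hc hs HS
  obtain ⟨A, hA, hincr⟩ := incr he hexp β hc hc1 hs HS hp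
  have hd : (0 : ℝ) < d := by exact_mod_cast Nat.pos_of_ne_zero (NeZero.ne d)
  set D := Real.sqrt d with hD
  have hD0 : 0 < D := Real.sqrt_pos.2 hd
  have hd1 : (1 : ℝ) ≤ d := by exact_mod_cast Nat.one_le_iff_ne_zero.2 (NeZero.ne d)
  have hD1 : 1 ≤ D := by rw [hD]; exact Real.one_le_sqrt.2 hd1
  set η : ℝ := 1 / (4 * D) with hη
  have hη0 : 0 < η := by rw [hη]; positivity
  have hη1 : η ^ 2 ≤ 1 := by
    have : η ≤ 1 := by
      rw [hη, div_le_one (by positivity)]
      linarith
    nlinarith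
  obtain ⟨r', hr', hnb⟩ := hgood.nb η hη0
  have hg0 : ∀ (t : ℝ) (q : Fin d × Bool), ∃ g ∈ E, 0 ≤ t → t ≤ r' →
      K1H53.KD.sq (g - (h + (sg q.2 * t) • (Pi.single q.1 (1 : ℝ) : Fin d → ℝ))) ≤
        η ^ 2 * t ^ 2 := by
    intro t q
    by_cases ht : 0 ≤ t ∧ t ≤ r'
    · have e : K1H53.KD.sq ((sg q.2 * t) • (Pi.single q.1 (1 : ℝ) : Fin d → ℝ)) = t ^ 2 := by
        rw [sq_single, mul_pow, pow_two (sg q.2), sg_sq, one_mul]
      obtain ⟨g, hg, hg'⟩ := hnb ((sg q.2 * t) • (Pi.single q.1 (1 : ℝ) : Fin d → ℝ)) (by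
        rw [e]; exact pow_le_pow_left₀ ht.1 ht.2 2)
      rw [e] at hg'
      exact ⟨g, hg, fun _ _ => hg'⟩
    · exact ⟨h, hgood.mem, fun h1 h2 => absurd ⟨h1, h2⟩ ht⟩
  choose g hgE hg using hg0
  set K := 1 / (16 * C₁ * D) with hK
  have hC10 := hgood.C0
  have hK0 : 0 < K := by rw [hK]; positivity
  set t : ℕ → ℝ := fun N => K * (N : ℝ) ^ (a - 1) with ht
  set G : ℕ → Option (Fin d × Bool) → Fin d → ℝ := fun N o => o.elim h (fun q => g (t N) q)
    with hG
  have hGE : ∀ N o, G N o ∈ E := by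
    intro N o
    cases o with
    | none => exact hgood.mem
    | some q => exact hgE (t N) q
  have hbad : ∀ N : ℕ, 1 ≤ N → P.real (BadEv P ω β c (G N) N) ≤
      Fintype.card (Option (Fin d × Bool)) * (2 * (N : ℝ) + 1) ^ (d + 2) *
        (C' * Real.exp (-(N : ℝ) ^ s')) := by
    intro N hN
    exact bad_bound (P := P) he β c (G N) N
      (B := C' * Real.exp (-(N : ℝ) ^ s')) (by positivity)
      (fun o k hk => hu N hN k hk _ (hGE N o))
  have hev : ∀ᶠ N : ℕ in atTop, ∀ x ∉ BadEv P ω β c (G N) N,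
      1 - frProb β h (fld ω x) (tube N v ((N : ℝ) ^ a)) ≤ Real.exp (-(N : ℝ) ^ c) := by
    have e1 : Tendsto (fun N : ℕ => K * (N : ℝ) ^ (a - 1)) atTop (𝓝 0) := by
      have h1 : Tendsto (fun N : ℕ => (N : ℝ) ^ (-(1 - a))) atTop (𝓝 0) :=
        (tendsto_rpow_neg_atTop (by linarith)).comp tendsto_natCast_atTop_atTop
      have h2 := h1.const_mul K
      rw [mul_zero] at h2
      refine h2.congr (fun N => ?_)
      rw [neg_sub]
    have e2 := e1.eventually_lt_const (half_pos hgood.r0)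
    have e2' := e1.eventually_lt_const hr'
    have e3 := asym (c := c) (e := 2 * a - 1) (b := K / (2 * D)) (K := A + 6) hc (by linarith)
      (by positivity) (2 * d)
    filter_upwards [e2, e2', e3, eventually_ge_atTop 1] with N hN1 hN1' hN2 hN3 x hx
    have hNR : (1 : ℝ) ≤ N := by exact_mod_cast hN3
    have hN0 : (0 : ℝ) < N := by linarith
    have htN : t N = K * (N : ℝ) ^ (a - 1) := rfl
    have htp : 0 < t N := by rw [htN]; positivity
    have htr : t N ≤ r / 2 := hN1.le
    have htr' : t N ≤ r' := hN1'.le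
    set R := (N : ℝ) ^ a with hR
    have hR0 : 0 < R := by rw [hR]; positivity
    -- the drifts are close to `h`
    have hsq : ∀ q : Fin d × Bool, K1H53.KD.sq (g (t N) q - h) ≤ 4 * t N ^ 2 := by
      intro q
      have h1 := hg (t N) q htp.le htr'
      have h2 := sq_add_le (g (t N) q - (h + (sg q.2 * t N) • (Pi.single q.1 (1 : ℝ) : Fin d → ℝ)))
        ((sg q.2 * t N) • (Pi.single q.1 (1 : ℝ) : Fin d → ℝ))
      have e : g (t N) q - (h + (sg q.2 * t N) • (Pi.single q.1 (1 : ℝ) : Fin d → ℝ)) +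
          (sg q.2 * t N) • (Pi.single q.1 (1 : ℝ) : Fin d → ℝ) = g (t N) q - h := by abel
      rw [e, sq_single, mul_pow, pow_two (sg q.2), sg_sq, one_mul] at h2
      nlinarith [sq_nonneg (t N)]
    have hsq' : ∀ q : Fin d × Bool, K1H53.KD.sq (g (t N) q - h) ≤ r ^ 2 := by
      intro q
      refine (hsq q).trans ?_
      have := pow_le_pow_left₀ htp.le htr 2
      nlinarith
    have hnear : ∀ (q : Fin d × Bool) (k : Fin d), |g (t N) q k - h k| ≤ 1 := by
      intro q k
      have := abs_le_of_sq hgood.r0.le (hsq' q) k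
      simp only [Pi.sub_apply] at this
      exact this.trans hgood.r1
    -- one constraint
    have one : ∀ i ≤ N, ∀ q : Fin d × Bool, frProb β h (fld ω x) {w : Fin N → Step d |
        3 / 4 * (t N * (R / D)) ≤ ∑ k, (g (t N) q - h) k * ((pos w i k : ℝ) - i * v k)} ≤
        Real.exp (-(K / (2 * D) * (N : ℝ) ^ (2 * a - 1)) + (A + 6) * (N : ℝ) ^ c) := by
      intro i hi q
      have hiN : (i : ℝ) ≤ N := by exact_mod_cast hi
      set θ := g (t N) q - h with hθ
      have hch := cher' (P := P) (β := β) (c := c) hi hx none (some q) (θ := θ) (by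
          show g (t N) q = h + θ
          rw [hθ]; abel)
        (3 / 4 * (t N * (R / D)) + i * ip v θ)
      have hsub : {w : Fin N → Step d |
          3 / 4 * (t N * (R / D)) ≤ ∑ k, θ k * ((pos w i k : ℝ) - i * v k)} ⊆
          {w : Fin N → Step d | 3 / 4 * (t N * (R / D)) + i * ip v θ ≤ dot θ (pos w i)} := by
        intro w hw
        simp only [Set.mem_ofPred_eq] at hw ⊢
        have e : ∑ k, θ k * ((pos w i k : ℝ) - i * v k) = dot θ (pos w i) - i * ip v θ := by
          unfold dot ip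
          rw [Finset.mul_sum, ← Finset.sum_sub_distrib]
          apply Finset.sum_congr rfl
          intro k _
          ring
        rw [e] at hw
        linarith
      refine (frProb_mono β h (fld ω x) hsub).trans (hch.trans ?_)
      apply Real.exp_le_exp.2
      have h9 : G N none = h := rfl
      have h10 : G N (some q) = g (t N) q := rfl
      rw [h9, h10]
      have h1 := (abs_le.1 (hincr h hgood.mem (g (t N) q) (hgE _ _) (hnear q) i)).2
      have h2 : p (g (t N) q) ≤ p h + ip v θ + C₁ * (4 * t N ^ 2) := by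
        have h3 := hgood.up θ (hsq' q)
        have h4 : h + θ = g (t N) q := by rw [hθ]; abel
        rw [h4] at h3
        have h5 := mul_le_mul_of_nonneg_left (hsq q) hC10.le
        linarith
      have h3 : (i : ℝ) * (p (g (t N) q) - p h) ≤ i * ip v θ + N * (C₁ * (4 * t N ^ 2)) := by
        have h4 : (i : ℝ) * (p (g (t N) q) - p h) ≤ i * (ip v θ + C₁ * (4 * t N ^ 2)) :=
          mul_le_mul_of_nonneg_left (by linarith) (Nat.cast_nonneg i)
        have h5 : (i : ℝ) * (C₁ * (4 * t N ^ 2)) ≤ N * (C₁ * (4 * t N ^ 2)) :=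
          mul_le_mul_of_nonneg_right hiN (by positivity)
        linarith
      have h4 : A * (i : ℝ) ^ c ≤ A * (N : ℝ) ^ c :=
        mul_le_mul_of_nonneg_left (Real.rpow_le_rpow (Nat.cast_nonneg i) hiN hc.le) hA
      have h5 : 3 / 4 * (t N * (R / D)) = 3 / 4 * (K / D * (N : ℝ) ^ (2 * a - 1)) := by
        rw [htN, hR]
        have : (N : ℝ) ^ (2 * a - 1) = (N : ℝ) ^ (a - 1) * (N : ℝ) ^ a := by
          rw [← Real.rpow_add hN0]; congr 1; ring
        rw [this]
        ring
      have h6 : (N : ℝ) * (C₁ * (4 * t N ^ 2)) = 1 / 4 * (K / D * (N : ℝ) ^ (2 * a - 1)) := by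
        rw [htN]
        have e1 : (N : ℝ) ^ (2 * a - 1) = N * ((N : ℝ) ^ (a - 1)) ^ 2 := by
          rw [← Real.rpow_natCast, ← Real.rpow_mul hN0.le, ← Real.rpow_one_add' hN0.le]
          · congr 1; push_cast; ring
          · push_cast; linarith
        rw [e1]
        have e2 : C₁ * K = 1 / (16 * D) := by rw [hK]; field_simp
        calc (N : ℝ) * (C₁ * (4 * (K * (N : ℝ) ^ (a - 1)) ^ 2)) =
            4 * (C₁ * K) * K * (N * ((N : ℝ) ^ (a - 1)) ^ 2) := by ring
          _ = _ := by rw [e2]; field_simp; ring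
      have h7 : K / (2 * D) * (N : ℝ) ^ (2 * a - 1) = 1 / 2 * (K / D * (N : ℝ) ^ (2 * a - 1)) := by
        field_simp
      linarith
    -- union
    set F : Finset (ℕ × (Fin d × Bool)) := Finset.range (N + 1) ×ˢ Finset.univ with hF
    have hun := frProb_union β h (fld ω x) F (fun p => {w : Fin N → Step d |
        3 / 4 * (t N * (R / D)) ≤ ∑ k, (g (t N) p.2 - h) k * ((pos w p.1 k : ℝ) - p.1 * v k)})
        (B := (tube N v R)ᶜ) (by
      intro w hw
      obtain ⟨i, hi, k, b, hb, hmax⟩ := exit_max hR0.le hw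
      refine ⟨(i, (k, b)), ?_, ?_⟩
      · rw [hF, Finset.mem_product, Finset.mem_range]
        exact ⟨by omega, Finset.mem_univ _⟩
      · show 3 / 4 * (t N * (R / D)) ≤ _
        have h1 := tilt_max (θ := g (t N) (k, b) - h) (X := fun j => (pos w i j : ℝ) - i * v j)
          (k := k) (σ := sg b) (t := t N) (M := sg b * ((pos w i k : ℝ) - i * v k)) htp.le
          (le_trans (by positivity) hb) hmax rfl (by
            have h2 := hg (t N) (k, b) htp.le htr'
            have e : g (t N) (k, b) - h - (sg b * t N) • (Pi.single k (1 : ℝ) : Fin d → ℝ) =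
              g (t N) (k, b) - (h + (sg b * t N) • (Pi.single k (1 : ℝ) : Fin d → ℝ)) := by abel
            rw [e]
            exact h2)
        refine le_trans ?_ h1
        have h3 := mul_le_mul_of_nonneg_left hb htp.le
        linarith)
    have hcard : (F.card : ℝ) = (N + 1) * (d * 2) := by
      rw [hF, Finset.card_product, Finset.card_range, Finset.card_univ, Fintype.card_prod,
        Fintype.card_fin, Fintype.card_bool]
      push_cast
      ring
    have hfin : frProb β h (fld ω x) (tube N v R)ᶜ ≤ Real.exp (-(N : ℝ) ^ c) := by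
      refine hun.trans ?_
      have h1 : ∑ p ∈ F, frProb β h (fld ω x) {w : Fin N → Step d |
        3 / 4 * (t N * (R / D)) ≤ ∑ k, (g (t N) p.2 - h) k * ((pos w p.1 k : ℝ) - p.1 * v k)} ≤
        ∑ _p ∈ F, Real.exp (-(K / (2 * D) * (N : ℝ) ^ (2 * a - 1)) + (A + 6) * (N : ℝ) ^ c) := by
        apply Finset.sum_le_sum
        intro p hpF
        rw [hF, Finset.mem_product, Finset.mem_range] at hpF
        exact one p.1 (by omega) p.2
      rw [Finset.sum_const, nsmul_eq_mul, hcard] at h1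
      refine h1.trans (le_trans ?_ hN2)
      apply mul_le_mul_of_nonneg_right _ (Real.exp_pos _).le
      nlinarith
    have := frProb_compl β h (fld ω x) (tube N v R)
    linarith
  obtain ⟨N₀, hN₀⟩ := eventually_atTop.1 hev
  refine ⟨by linarith, ?_⟩
  refine to_tail (D := Fintype.card (Option (Fin d × Bool)) * C') (p := d + 2) (by positivity) hs'
    hc (N₀ := N₀) ?_ ?_
  · intro n
    calc ∫ x, (1 - frProb β h (fun i y => ω i y x) (tube n v ((n : ℝ) ^ a))) ∂P ≤
        ∫ _x, (1 : ℝ) ∂P := by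
          apply integral_mono_of_nonneg
          · refine Eventually.of_forall fun x => ?_
            have h1 := frProb_compl β h (fld ω x) (tube n v ((n : ℝ) ^ a))
            have h2 := frProb_nonneg β h (fld ω x) (tube n v ((n : ℝ) ^ a))ᶜ
            show (0 : ℝ) ≤ 1 - frProb β h (fld ω x) (tube n v ((n : ℝ) ^ a))
            linarith
          · exact integrable_const _
          · refine Eventually.of_forall fun x => ?_
            have h2 := frProb_nonneg β h (fld ω x) (tube n v ((n : ℝ) ^ a))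
            show 1 - frProb β h (fld ω x) (tube n v ((n : ℝ) ^ a)) ≤ 1
            linarith
      _ = 1 := by simp
  · intro n hn hn1
    set B := toMeasurable P (BadEv P ω β c (G n) n) with hB
    have hBm : MeasurableSet B := measurableSet_toMeasurable _ _
    have hBP : P.real B = P.real (BadEv P ω β c (G n) n) := by
      rw [hB, Measure.real, Measure.real, measure_toMeasurable]
    have hi : Integrable (fun x => B.indicator (fun _ => (1 : ℝ)) x + Real.exp (-(n : ℝ) ^ c)) P :=
      ((integrable_const (1 : ℝ)).indicator hBm).add (integrable_const _)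
    calc ∫ x, (1 - frProb β h (fun i y => ω i y x) (tube n v ((n : ℝ) ^ a))) ∂P ≤
        ∫ x, (B.indicator (fun _ => (1 : ℝ)) x + Real.exp (-(n : ℝ) ^ c)) ∂P := by
          apply integral_mono_of_nonneg
          · refine Eventually.of_forall fun x => ?_
            have h1 := frProb_compl β h (fld ω x) (tube n v ((n : ℝ) ^ a))
            have h2 := frProb_nonneg β h (fld ω x) (tube n v ((n : ℝ) ^ a))ᶜ
            show (0 : ℝ) ≤ 1 - frProb β h (fld ω x) (tube n v ((n : ℝ) ^ a))
            linarith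
          · exact hi
          · refine Eventually.of_forall fun x => ?_
            show 1 - frProb β h (fld ω x) (tube n v ((n : ℝ) ^ a)) ≤
              B.indicator (fun _ => (1 : ℝ)) x + Real.exp (-(n : ℝ) ^ c)
            by_cases hx : x ∈ BadEv P ω β c (G n) n
            · have hxB : x ∈ B := subset_toMeasurable _ _ hx
              rw [Set.indicator_of_mem hxB]
              have h2 := frProb_nonneg β h (fld ω x) (tube n v ((n : ℝ) ^ a))
              have h3 := Real.exp_pos (-(n : ℝ) ^ c)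
              linarith
            · have h1 := hN₀ n hn x hx
              have h2 : 0 ≤ B.indicator (fun _ => (1 : ℝ)) x :=
                Set.indicator_nonneg (fun _ _ => zero_le_one) x
              linarith
      _ = P.real B + Real.exp (-(n : ℝ) ^ c) := by
          rw [integral_add ((integrable_const (1 : ℝ)).indicator hBm) (integrable_const _),
            integral_indicator_const _ hBm]
          simp
      _ ≤ _ := by
          rw [hBP]
          have := hbad n hn1
          have e : (Fintype.card (Option (Fin d × Bool)) : ℝ) * (2 * (n : ℝ) + 1) ^ (d + 2) *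
              (C' * Real.exp (-(n : ℝ) ^ s')) = Fintype.card (Option (Fin d × Bool)) * C' *
              (2 * (n : ℝ) + 1) ^ (d + 2) * Real.exp (-(n : ℝ) ^ s') := by ring
          rw [e] at this
          linarith

end Pool.Agent.K1H38.KD
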